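import Pool.Agent.Y308.BC.Final

set_option autoImplicit false

open MeasureTheory Set Filter Topology Pool.Agent.Y308.BC
open scoped ContDiff

namespace Pool.Agent.Results.MP_2e12f0_an.GlobalNullControl

/-- `y` is the weak solution, in the class
`C⁰([0,T]; L²(0,1)) ∩ L²(0,T; H¹(0,1)) ∩ L^∞((0,T) × (0,1))`, of
`y_t + γ |y|^(γ-1) y_x - y_xx = u(t)` on `(0,T) × (0,1)`,
`y(t,0) = v(t)`, `y(t,1) = 0`, `y(0,x) = y₀(x)`. -/
structure IsSolution (γ T : ℝ) (y₀ u v : ℝ → ℝ) (y : ℝ → ℝ → ℝ) : Prop where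
  /-- `y` is measurable and bounded -/
  meas : Measurable fun q : ℝ × ℝ => y q.1 q.2
  bdd : ∃ M : ℝ, ∀ t ∈ Icc 0 T, ∀ x ∈ Icc (0 : ℝ) 1, |y t x| ≤ M
  /-- `t ↦ y(t,·)` is continuous from `[0,T]` to `L²(0,1)` -/
  cont : ∀ t ∈ Icc 0 T,
    Tendsto (fun s => ∫ x in Ioo (0 : ℝ) 1, (y s x - y t x) ^ 2) (𝓝[Icc 0 T] t) (𝓝 0)
  /-- the initial condition -/
  init : ∀ᵐ x ∂(volume.restrict (Ioo (0 : ℝ) 1)), y 0 x = y₀ x
  /-- there is `yx ∈ L²((0,T) × (0,1))` such that for almost every `t`, `yx(t,·) ∈ L²(0,1)`,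
  `y(t,·)` is absolutely continuous on `[0,1]` with derivative `yx(t,·)`, `y(t,0) = v(t)`
  and `y(t,1) = 0`, and the equation holds in the sense of distributions -/
  pde : ∃ yx : ℝ → ℝ → ℝ,
    MemLp (fun q : ℝ × ℝ => yx q.1 q.2) 2 (volume.restrict (Ioo 0 T ×ˢ Ioo 0 1)) ∧
    (∀ᵐ t ∂(volume.restrict (Ioo 0 T)), MemLp (yx t) 2 (volume.restrict (Ioo 0 1)) ∧
      (∀ x ∈ Icc (0 : ℝ) 1, y t x = v t + ∫ z in (0 : ℝ)..x, yx t z) ∧ y t 1 = 0) ∧
    ∀ φ : ℝ × ℝ → ℝ, ContDiff ℝ ∞ φ → HasCompactSupport φ → tsupport φ ⊆ Ioo 0 T ×ˢ Ioo 0 1 →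
      ∫ q in Ioo 0 T ×ˢ Ioo (0 : ℝ) 1,
        (y q.1 q.2 * fderiv ℝ φ q (1, 0) - γ * |y q.1 q.2| ^ (γ - 1) * yx q.1 q.2 * φ q
          - yx q.1 q.2 * fderiv ℝ φ q (0, 1) + u q.1 * φ q) = 0

/-- For every `1 < γ ≤ 3/2`, every `T > 0` and every `y₀ ∈ L^∞(0,1)` there are controls
`u ∈ L^∞(0,T)` and `v ∈ H^{1/4}(0,T) ∩ L^∞(0,T)` whose solution satisfies `y(T,·) = 0`. -/
theorem result (γ : ℝ) (hγ1 : 1 < γ) (hγ2 : γ ≤ 3 / 2) (T : ℝ) (hT : 0 < T) (y₀ : ℝ → ℝ)
    (hy₀ : MemLp y₀ ⊤ (volume.restrict (Ioo (0 : ℝ) 1))) :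
    ∃ u v : ℝ → ℝ, MemLp u ⊤ (volume.restrict (Ioo 0 T)) ∧
      MemLp v ⊤ (volume.restrict (Ioo 0 T)) ∧
      IntegrableOn (fun q : ℝ × ℝ => (v q.1 - v q.2) ^ 2 / |q.1 - q.2| ^ (3 / 2 : ℝ))
        (Ioo 0 T ×ˢ Ioo 0 T) ∧
      ∃ y : ℝ → ℝ → ℝ, IsSolution γ T y₀ u v y ∧
        ∀ᵐ x ∂(volume.restrict (Ioo (0 : ℝ) 1)), y T x = 0 := by
  obtain ⟨g, M, hM, hgm, hgb, hge⟩ := exists_rep hy₀
  have hp : 0 < γ - 1 := by linarith
  have hp1 : γ - 1 ≤ 1 / 2 := by linarith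
  have hgm' : Measurable fun x : ℝ => g (1 - x) := hgm.comp (by fun_prop)
  obtain ⟨Y, P, u, v, R, K, Λ, U, hS, hY0, hYT⟩ :=
    null_sol hp hp1 hT hM hgm' (fun x _ => hgb (1 - x))
  have h01 : ∀ x ∈ Icc (0:ℝ) 1, 1 - x ∈ Icc (0:ℝ) 1 := fun x hx =>
    ⟨by linarith [hx.2], by linarith [hx.1]⟩
  refine ⟨u, v, ?_, lip_bdd hT hS.vL, gagliardo hT hS.vL, fun t x => Y t (1 - x), ?_, ?_⟩
  · refine memLp_top_of_bound hS.mU.aestronglyMeasurable U ?_
    filter_upwards [ae_restrict_mem measurableSet_Ioo] with t ht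
    exact hS.bU t (Ioo_subset_Icc_self ht)
  · refine ⟨?_, ⟨R, fun t ht x hx => hS.bY t ht _ (h01 x hx)⟩, ?_, ?_, ?_⟩
    · exact hS.mY.comp (f := fun q : ℝ × ℝ => (q.1, 1 - q.2)) (by fun_prop)
    · intro t ht
      have h1 := hS.cont t ht
      refine h1.congr fun s => ?_
      have h2 := intervalIntegral.integral_comp_sub_left (a := (0:ℝ)) (b := 1)
        (fun x => (Y s x - Y t x) ^ 2) 1
      rw [sub_self, sub_zero] at h2
      rw [← h2, intervalIntegral.integral_of_le zero_le_one, integral_Ioc_eq_integral_Ioo]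
    · filter_upwards [hge, ae_restrict_mem measurableSet_Ioo] with x hx hx1
      have h1 := hY0 (1 - x) (h01 x (Ioo_subset_Icc_self hx1))
      rw [sub_sub_cancel] at h1
      rw [h1, hx]
    · refine ⟨fun t x => -(P t (1 - x)), ?_, ?_, ?_⟩
      · have h1 := (hS.P2.comp_measurePreserving (mp_refl2 0 T)).neg
        rw [nu_Ioo] at h1
        exact h1
      · have h1 := hS.slope
        rw [Ioo_Ioc] at h1
        filter_upwards [h1, sec_P hS.mP hS.P2, ae_restrict_mem measurableSet_Ioo] with t h2 h3 ht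
        have hi : IntervalIntegrable (P t) volume 0 1 := by
          rw [intervalIntegrable_iff_integrableOn_Ioo_of_le zero_le_one]
          exact h3.integrable one_le_two
        refine ⟨(h3.comp_measurePreserving mp_refl).neg, fun x hx => ?_, ?_⟩
        · have e1 := hS.bdry t (Ioo_subset_Ioc_self ht)
          have e2 := h2 1 ⟨zero_le_one, le_rfl⟩
          have e3 := h2 (1 - x) (h01 x hx)
          have e4 := intervalIntegral.integral_comp_sub_left (a := (0:ℝ)) (b := x) (P t) 1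
          rw [sub_zero] at e4
          show Y t (1 - x) = v t + ∫ z in (0:ℝ)..x, -(P t (1 - z))
          rw [intervalIntegral.integral_neg, e4, ← e1, e2, e3]
          have i1 : IntervalIntegrable (P t) volume 0 (1 - x) := hi.mono_set (by
            rw [uIcc_of_le zero_le_one, uIcc_of_le (h01 x hx).1]
            exact Icc_subset_Icc_right (h01 x hx).2)
          have i2 : IntervalIntegrable (P t) volume (1 - x) 1 := hi.mono_set (by
            rw [uIcc_of_le zero_le_one, uIcc_of_le (h01 x hx).2]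
            exact Icc_subset_Icc_left (h01 x hx).1)
          have e5 := intervalIntegral.integral_add_adjacent_intervals i1 i2
          linarith
        · show Y t (1 - 1) = 0
          rw [sub_self, h2 0 ⟨le_rfl, zero_le_one⟩, intervalIntegral.integral_same]
      · intro φ hφ _ hsupp
        have h1 := hS.weak _ _ _ (test_refl hφ hsupp)
        have z0 : ∀ x, φ (0, x) = 0 := fun x =>
          image_eq_zero_of_notMem_tsupport fun h => lt_irrefl _ (hsupp h).1.1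
        have zT : ∀ x, φ (T, x) = 0 := fun x =>
          image_eq_zero_of_notMem_tsupport fun h => lt_irrefl _ (hsupp h).1.2
        simp only [z0, zT, mul_zero, intervalIntegral.integral_zero, sub_zero] at h1
        have h2 := (mp_refl2 0 T).integral_comp me_refl2
          (integrand (γ - 1) Y P u (fun t x => φ (t, 1 - x))
            (fun t x => fderiv ℝ φ (t, 1 - x) (1, 0)) fun t x => -(fderiv ℝ φ (t, 1 - x) (0, 1)))
        rw [← nu_Ioo]
        refine Eq.trans ?_ (h2.trans h1.symm)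
        refine integral_congr_ae (Eventually.of_forall fun q => ?_)
        simp only [integrand, spd, sub_sub_cancel]
        have e : 1 + (γ - 1) = γ := by ring
        rw [e]
        ring
  · exact Eventually.of_forall fun x => hYT (1 - x)

end Pool.Agent.Results.MP_2e12f0_an.GlobalNullControl
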